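import Pool.Agent.Helper78_NDM.Stmts

/-!
# NDM, module BAS: no forms
-/

set_option autoImplicit false
set_option linter.unusedVariables false
set_option linter.unusedSectionVars false

namespace Pool.Agent.NDM.H79

open PowerSeries Finset Pool.Agent.Helper6_Mono Pool.Agent.Helper32_OMP

theorem coeff_pp_empty {k : Type} [Field k] {σ ι : Type} [Fintype σ] {S : Type} [CommRing S]
    [Algebra k S] (L : ι → σ → k) (m : ι → ℕ) (a : S) (γ : σ → S⟦X⟧) (j : ℕ) :
    coeff j (C a * pp L m ∅ γ) = if j = 0 then a else 0 := by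
  unfold pp
  rw [Finset.prod_empty, mul_one, coeff_C]

theorem bas : BasStmt := by
  intro k _ σ ι _ β wβ R _ L0 χ L m Y hY wu u ω θ
  refine ⟨fun M h hM => ?_, fun h h0 => ?_⟩
  · refine SInv.empty χ (FT_JJ L m ∅ M ω θ hY u h) fun S _ _ x => ?_
    have h1 : coeff M (C (u.fn x.1.1) * pp L m ∅ x.1.2.1) = if M = M then 1 else 0 :=
      x.2 M le_rfl
    rw [coeff_pp_empty, if_neg hM.ne', if_pos rfl] at h1
    exact h1.symm
  · refine χ.iso (FT_JJ L m ∅ 0 ω θ hY u h) ?_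
    refine OIso.mk' (X := JJ L m ∅ 0 ω θ Y u h) (Y := ONE Y u h0)
      (fun S _ _ x => ⟨x.1.1, ?_⟩)
      (fun S _ _ y => ⟨(y.1, ⟨fun _ => 0, fun _ _ _ => map_zero _⟩), ?_⟩)
      (fun S _ _ x => ?_) (fun S _ _ y => ?_) (fun φ c x => ?_) (fun S _ _ x b => ?_)
    · have h1 : coeff 0 (C (u.fn x.1.1) * pp L m ∅ x.1.2.1) = if 0 = 0 then 1 else 0 :=
        x.2 0 le_rfl
      rw [coeff_pp_empty, if_pos rfl, if_pos rfl] at h1
      exact h1
    · intro j hj
      obtain rfl : j = 0 := Nat.le_zero.1 hj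
      show coeff 0 (C (u.fn y.1) * pp L m ∅ (fun _ => (0 : S⟦X⟧))) = _
      rw [coeff_pp_empty, if_pos rfl, if_pos rfl]
      exact y.2
    · refine Subtype.ext (Prod.ext rfl (Subtype.ext (funext fun i => ?_)))
      ext j
      show coeff j (0 : S⟦X⟧) = coeff j (x.1.2.1 i)
      rw [x.1.2.2 i j (fun hh => by
        have h1 : 1 ≤ j ∧ j ≤ 0 := hh
        omega), map_zero]
    · rfl
    · rfl
    · rfl

end Pool.Agent.NDM.H79
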