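import Pool.Agent.Helper78_NDM.Stmts

/-!
# NDM, module DN2: summation of the recursion
-/

set_option autoImplicit false
set_option linter.unusedVariables false
set_option linter.unusedSectionVars false

namespace Pool.Agent.NDM.H79

open PowerSeries Finset Pool.Agent.Helper6_Mono Pool.Agent.Helper32_OMP

section seq

variable {R : Type 1} [CommRing R] (L0 : Rˣ)

/-- the solution of the recursion `c(M + d) = Li^r c(M) + s(M)` -/
def cc (r d : ℕ) (s : ℕ → R) (M : ℕ) : R :=
  ∑ j ∈ range M, if (j + 1) * d ≤ M then Li L0 ^ (r * j) * s (M - (j + 1) * d) else 0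

theorem cc_ge {r d : ℕ} (hd : 0 < d) (s : ℕ → R) {M K : ℕ} (h : M ≤ K) :
    ∑ j ∈ range K, (if (j + 1) * d ≤ M then Li L0 ^ (r * j) * s (M - (j + 1) * d) else 0)
      = cc L0 r d s M := by
  unfold cc
  symm
  refine Finset.sum_subset (fun j hj => ?_) fun j hj hj' => ?_
  · rw [mem_range] at hj ⊢
    omega
  · rw [mem_range] at hj'
    rw [if_neg]
    intro hh
    have h1 : (j + 1) * 1 ≤ (j + 1) * d := Nat.mul_le_mul_left _ hd
    omega

theorem cc_lt {r d : ℕ} (s : ℕ → R) {M : ℕ} (h : M < d) : cc L0 r d s M = 0 := by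
  unfold cc
  refine Finset.sum_eq_zero fun j _ => ?_
  rw [if_neg]
  intro hh
  have h1 : 1 * d ≤ (j + 1) * d := Nat.mul_le_mul_right _ (by omega)
  omega

theorem cc_add {r d : ℕ} (hd : 0 < d) (s : ℕ → R) (M : ℕ) :
    cc L0 r d s (M + d) = Li L0 ^ r * cc L0 r d s M + s M := by
  rw [← cc_ge L0 hd s (show M ≤ M + d - 1 by omega)]
  unfold cc
  have h1 : M + d = (M + d - 1) + 1 := by omega
  rw [show range (M + d) = range ((M + d - 1) + 1) by rw [← h1], Finset.sum_range_succ',
    Finset.mul_sum]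
  congr 1
  · refine Finset.sum_congr rfl fun j _ => ?_
    have h2 : (j + 1 + 1) * d = (j + 1) * d + d := by ring
    rw [h2]
    by_cases h3 : (j + 1) * d ≤ M
    · rw [if_pos h3, if_pos (by omega), show M + d - ((j + 1) * d + d) = M - (j + 1) * d by omega,
        show r * (j + 1) = r + r * j by ring, pow_add, mul_assoc]
    · rw [if_neg h3, if_neg (by omega), mul_zero]
  · rw [if_pos (by omega), mul_zero, pow_zero, one_mul, zero_add, one_mul, Nat.add_sub_cancel]

theorem cc_eq (r d : ℕ) (s : ℕ → R) (M : ℕ) :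
    (L0 : R) ^ r * (∑ j ∈ Icc 1 M, if j * d ≤ M then Li L0 ^ (r * j) * s (M - j * d) else 0)
      = cc L0 r d s M := by
  unfold cc
  have h1 : Icc 1 M = Ico (0 + 1) (M + 1) := by
    ext j
    simp only [mem_Icc, mem_Ico]
    omega
  rw [h1, ← Finset.sum_Ico_add' _ 0 M 1, ← Finset.range_eq_Ico, Finset.mul_sum]
  refine Finset.sum_congr rfl fun j _ => ?_
  split_ifs with h2
  · rw [show r * (j + 1) = r + r * j by ring, pow_add, ← mul_assoc, ← mul_assoc,
      mul_comm ((L0 : R) ^ r), Li_pow_mul, one_mul]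
  · rw [mul_zero]

theorem cc_rp (hg : GenfStmt) (S : Set ℚ) (r d : ℕ) (hd : 0 < d) (s : ℕ → R)
    (hs : RP L0 (steps S) s) :
    RP L0 (steps (S ∪ {(r : ℚ) / (d : ℚ)})) (cc L0 r d s) :=
  (RP.smul ((L0 : R) ^ r) ((hg R L0).2 S r d hd s hs)).congr fun M => cc_eq L0 r d s M

end seq

theorem EE_w {k : Type} [Field k] {β : Type} {wβ : β → QZ} {R : Type 1} [CommRing R] {L0 : Rˣ}
    (χ : SInv k wβ L0) (Y : Over k QZ β wβ) {wu : QZ} (u : NF Y.F wu) (P : GF k QZ) (g : NF P 0)
    (e : ℕ) {w w' : QZ} (hw : w = w') (h : wu + e • w = 0) (h' : wu + e • w' = 0) :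
    χ.χ (EE Y u P g e w h) = χ.χ (EE Y u P g e w' h') := by
  subst hw
  rfl

theorem wt_eq {mF e M : ℕ} (he : 0 < e) (h1 : e ∣ mF) (h2 : e ∣ M) (θ ω : QZ) :
    (mF / e) • θ + ((M + mF) / e) • ω = (mF / e) • (θ + ω) + (M / e) • ω := by
  rw [Nat.add_div_of_dvd_right h2, add_smul, smul_add]
  abel

theorem dn2 (h : Dn1Stmt) (hg : GenfStmt) : Dn2Stmt := by
  intro k _ σ ι _ _ R _ L0 L m F S hF hm hL hcl
  obtain ⟨D, hD⟩ := h k σ ι R L0 L m F S hF hm hL hcl
  have hmF : 0 < ∑ i ∈ F, m i := Finset.sum_pos (fun i _ => hm i) hF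
  refine ⟨{ Λ := D.Λ
            fin := D.fin
            P := D.P
            ft := D.ft
            g := D.g
            e := D.e
            epos := D.epos
            edvd := D.edvd
            c := fun a => cc L0 (rk L F) (∑ i ∈ F, m i) (D.c a)
            rp := fun a => cc_rp L0 hg S (rk L F) (∑ i ∈ F, m i) hmF (D.c a) (D.rp a) }, ?_⟩
  intro β wβ χ Y hY wu u M
  induction M using Nat.strong_induction_on with
  | _ M ih =>
    intro ω θ h0
    obtain ⟨hlt, hge⟩ := hD β wβ χ Y hY wu u ω θ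
    rcases Nat.lt_or_ge M (∑ i ∈ F, m i) with hM | hM
    · rw [hlt M h0 hM, mul_zero]
      symm
      unfold Dat.val
      refine Finset.sum_eq_zero fun a _ => ?_
      dsimp only
      rw [cc_lt L0 (D.c a) hM]
      split_ifs
      · rw [zero_mul]
      · rfl
    · obtain ⟨M', rfl⟩ : ∃ M', M = M' + ∑ i ∈ F, m i := ⟨M - ∑ i ∈ F, m i, by omega⟩
      have h' : wu + (∑ i ∈ F, m i) • (θ + ω) + M' • ω = 0 := by
        rw [← h0, smul_add, add_smul]
        abel
      rw [hge M' h0 h', ih M' (by omega) ω (θ + ω) h']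
      unfold Dat.val
      dsimp only
      letI := D.fin
      rw [Finset.mul_sum, ← Finset.sum_add_distrib]
      refine Finset.sum_congr rfl fun a _ => ?_
      by_cases he : D.e a ∣ M'
      · have he' : D.e a ∣ M' + ∑ i ∈ F, m i := dvd_add he (D.edvd a)
        rw [dif_pos he, dif_pos he, dif_pos he', cc_add L0 hmF,
          EE_w χ Y u (D.P a) (D.g a) (D.e a) (wt_eq (D.epos a) (D.edvd a) he θ ω)
            (hEE h0 (D.edvd a) he') (hEE h' (D.edvd a) he)]
        ring
      · have he' : ¬ D.e a ∣ M' + ∑ i ∈ F, m i := fun hh => he ((Nat.dvd_add_left (D.edvd a)).1 hh)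
        rw [dif_neg he, dif_neg he, dif_neg he', mul_zero, add_zero]

end Pool.Agent.NDM.H79
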